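import Pool.Agent.T9h36.N1.Spec

/-!
# Project NK, slope 1: the piece N4
-/

set_option autoImplicit false

open Set
open scoped RealInnerProductSpace

namespace Pool.Agent.T9h8.N1

open Pool.Agent.T9h98.DC Pool.Agent.T9h98.NK Pool.Agent.T9h44.NK Pool.Agent.T9h46.NK
open Pool.Agent.T9h36.N1

/-- **N4.** -/
theorem n4 (hF : S_FACES) (hVF : S_VF) (hI : S_INV) (hO : S_IOTA) (hT : S_TR) (hLC : S_LOCC)
    (hC2 : S_C2) (hN2 : S_N2) : S_N4 := by
  intro m N hN hMK j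
  induction j with
  | zero =>
    intro n hn P H hP hH hFew hR
    exact hN2 n P H (by omega) hP hH (hMK n (by omega) P H hP hH hFew) hR
  | succ j ih =>
    intro n hn P H hP hH hFew hR
    obtain ⟨n', rfl⟩ : ∃ n', n = n' + 1 := ⟨n - 1, by omega⟩
    have hG := hMK (n' + 1) (by omega) P H hP hH hFew
    have h1 : PT 1 H P := hN2 (n' + 1) P H (by omega) hP hH hG hR
    by_cases hex : ∃ (v a : E (n' + 1 + 1)) (ι : E (n' + 1) →ₗᵢ[ℝ] E (n' + 1 + 1)), Vx P v ∧ a ≠ 0 ∧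
        Sup P v a ∧ Ort a ι ∧ (∀ h ∈ H, h v = v → h a = a) ∧
          (RegS (fig v a ι P) ∨ RegO (fig v a ι P))
    · obtain ⟨v, a, ι, hv, ha, hs, hι, hfix, hreg⟩ := hex
      obtain ⟨t1, -, t3, t4, -⟩ := hT (n' + 1) P H v a ι hP hH hv hs ha hι hfix
      have hfig := (hVF (n' + 1) P v a ι hP hv hs ha hι).1
      exact t3 (j + 1) (fun w hw => vtrans h1 v w hv hw)
        (ih n' (by omega) _ _ hfig t1 (t4 m hFew) hreg)
    · exfalso
      obtain ⟨-, -, -, -, hne, -⟩ := hF (n' + 1 + 1) P hP.1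
      obtain ⟨-, hv0⟩ := hne (hP.2.mono interior_subset)
      refine hC2 (n' + 1) P (by omega) hP hv0 fun v hv => ?_
      obtain ⟨a, ha, hs, hfix⟩ := hI (n' + 1 + 1) P v H hP.1 hv (exists_ne hP v) hH
      obtain ⟨ι, hι, -⟩ := hO (n' + 1) a ha
      obtain ⟨t1, -, -, t4, -⟩ := hT (n' + 1) P H v a ι hP hH hv hs ha hι hfix
      have hfig := (hVF (n' + 1) P v a ι hP hv hs ha hι).1
      have hGf := hMK n' (by omega) _ _ hfig t1 (t4 m hFew)
      refine hLC (n' + 1) P H v a ι (by omega) hP hH hv ⟨hs, ha, hι, hfix, hGf⟩ ?_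
      rcases hGf.1 with h | h | h
      · exact absurd ⟨v, a, ι, hv, ha, hs, hι, hfix, Or.inl h⟩ hex
      · exact absurd ⟨v, a, ι, hv, ha, hs, hι, hfix, Or.inr h⟩ hex
      · exact h

end Pool.Agent.T9h8.N1
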